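import Pool.Agent.H182R2.PL.Main

/-!
# MP_be22fd_co : a linear lower bound for the degree needed to realise pseudoline arrangements

The definitions `IsArrangement`, `IsSimple`, `curve`, `Isomorphic`, `Stretchable` are in
`Pool/Agent/H182R2/PL/Defs.lean`:

* `IsArrangement f` : every `f i` is continuous and for `i ≠ j` the difference `f i - f j` has
  exactly one zero and changes sign there;
* `IsSimple f` : no three curves pass through a common point;
* `curve f` : the graph of `f` as a subset of `ℝ × ℝ`;
* `Isomorphic f g` : some homeomorphism of `ℝ × ℝ` maps the curves of `f` bijectively onto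
  the curves of `g`;
* `Stretchable d f` : `f` is isomorphic to an arrangement whose curves are graphs of real
  polynomials of degree at most `d`.
-/

namespace Pool.Agent.Results.MP_be22fd_co.LinearLower

open Pool.Agent.H182R2.PL

/-- For every `n` there is a simple arrangement of `n` pseudolines that is `d`-stretchable only
if `n ≤ 8 d + 19`; so `d(n) ≥ (n - 19) / 8`. -/
theorem result (n : ℕ) : ∃ f : Fin n → ℝ → ℝ, IsArrangement f ∧ IsSimple f ∧
    ∀ d : ℕ, Stretchable d f → n ≤ 8 * d + 19 :=
  main n

end Pool.Agent.Results.MP_be22fd_co.LinearLower
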